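import Pool.Agent.T2H42.BNB.Neg

/-!
# Baire measurable versus Borel solutions on the shift graph of `ℤ^d`

For every `d ≥ 2` there is a locally checkable labelling problem (a finite set of labels, a radius `r`
and a set of isomorphism types of finite rooted labelled graphs) which has a Baire measurable
solution on the shift graph of the free part of `2^(ℤ^d)` (a Borel solution on an invariant comeagre
Borel set), but no Borel solution, and not even a measurable one.

In the shift graph `x` is adjacent to `± e_i · x`; the problem does not see the
generators, only the isomorphism types of the labelled balls.
-/

set_option autoImplicit false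

namespace Pool.Agent.Results.MP_eb515b_lc.BaireNotBorelShift

open Pool.Agent.T2H42.BNB

/-- For every `d ≥ 2` some locally checkable labelling problem has a Baire measurable solution on
the shift graph of `ℤ^d`, but neither a Borel nor a measurable solution. -/
theorem result : ∀ d : ℕ, 2 ≤ d →
    ∃ L : LCL, L.BaireSol d ∧ ¬ L.BorelSol d ∧ ¬ L.MeasSol d :=
  fun _ hd => ⟨Prob hd, baireSol hd, not_borelSol hd, not_measSol hd⟩

end Pool.Agent.Results.MP_eb515b_lc.BaireNotBorelShift
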